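import Pool.Agent.H906.EhrW.Fam

/-!
# Volume bound for weights on lattice point free bodies: the discrete inequality
-/

set_option autoImplicit false

open scoped Pointwise
open Set

namespace Pool.Agent.H906.EhrW

open Pool.Agent.H912R3.Ehr

variable {d : ℕ}

/-- the discrete inequality, with multiplicities -/
theorem disc_w (hd : 1 ≤ d) {K : Set (Fin d → ℝ)} (hKc : Convex ℝ K)
    (hL : ∀ z : Fin d → ℤ, (fun i => (z i : ℝ)) ∈ interior K → z = 0)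
    {k B : ℕ} (hk : 1 ≤ k) {ε δ : ℝ} (hε : 0 < ε) (hε1 : ε < 1)
    (hδ : 0 < δ) (hball : Metric.ball (0 : Fin d → ℝ) δ ⊆ K)
    (A : Finset (Fin d →₀ ℕ)) (hAK : ∀ m ∈ A, pt k B m ∈ K)
    (r : (Fin d →₀ ℕ) → ℕ) (R : ℕ) (hr : ∀ l ∈ A, r l ≤ R) (hA0 : 0 < ∑ m ∈ A, r m)
    (hc : ‖((∑ m ∈ A, r m : ℕ) : ℝ)⁻¹ • ∑ m ∈ A, (r m : ℝ) • pt k B m‖ < ε * δ)
    (e q a J : ℕ) (hq : q = 2 ^ e) (ha : (a : ℝ) * ((∑ m ∈ A, r m : ℕ) * k) ≤ (1 - ε) * q) :
    a * (J * ∑ m ∈ A, r m) ≤ a * (R * (J + d).choose (d + 1)) + d * (q - 1) := by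
  have : Fact (Nat.Prime 2) := ⟨Nat.prime_two⟩
  set N : ℕ := ∑ m ∈ A, r m with hN
  set c : Fin d → ℝ := ((N : ℝ)⁻¹) • ∑ m ∈ A, (r m : ℝ) • pt k B m with hcdef
  have hk' : (0 : ℝ) < k := by positivity
  have hN' : (0 : ℝ) < N := by exact_mod_cast hA0
  set C : Set (Fin d → ℝ) := {y | (k : ℝ)⁻¹ • y - (fun _ => (B : ℝ)) ∈ K} with hCdef
  have hCc : Convex ℝ C := by
    intro x hx y hy p r hp hr hpr
    show (k : ℝ)⁻¹ • (p • x + r • y) - (fun _ => (B : ℝ)) ∈ K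
    have h1 := hKc hx hy hp hr hpr
    convert h1 using 1
    funext i
    simp only [Pi.sub_apply, Pi.smul_apply, Pi.add_apply, smul_eq_mul]
    have : (B : ℝ) = p * B + r * B := by rw [← add_mul, hpr, one_mul]
    linear_combination (-1 : ℝ) * this
  have h0 : (0 : Fin d → ℝ) ∈ K := hball (Metric.mem_ball_self hδ)
  have hCn : C.Nonempty := by
    refine ⟨(k : ℝ) • fun _ => (B : ℝ), ?_⟩
    show (k : ℝ)⁻¹ • ((k : ℝ) • fun _ => (B : ℝ)) - (fun _ => (B : ℝ)) ∈ K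
    rw [smul_smul, inv_mul_cancel₀ hk'.ne', one_smul, sub_self]
    exact h0
  have hAC : ∀ l ∈ A, toR l ∈ C := fun l hl => hAK l hl
  refine key_w (p := 2) hd A C hCc hCn hAC r R hr e q a J hq ?_
  intro m hm hcl
  obtain ⟨y, hy, hym⟩ := hm
  have hyK : (k : ℝ)⁻¹ • y - (fun _ => (B : ℝ)) ∈ K := hy
  set Y : Fin d → ℝ := (k : ℝ)⁻¹ • y - (fun _ => (B : ℝ)) with hY
  set Λ : Fin d →₀ ℕ := ∑ l ∈ A, r l • l with hΛ
  have hq0 : 0 < q := by rw [hq]; positivity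
  have hq' : (0 : ℝ) < q := by exact_mod_cast hq0
  -- coordinates of `Λ`
  have hΛc : ∀ i, (Λ i : ℝ) = k * N * (c i + B) := by
    intro i
    have h1 : c i = (N : ℝ)⁻¹ * ∑ m ∈ A, ((r m : ℝ) * ((k : ℝ)⁻¹ * (m i : ℝ) - B)) := by
      rw [hcdef, Pi.smul_apply, smul_eq_mul, Finset.sum_apply]
      rfl
    have h2 : (Λ i : ℝ) = ∑ m ∈ A, (r m : ℝ) * (m i : ℝ) := by
      rw [hΛ, Finsupp.finsetSum_apply, Nat.cast_sum]
      refine Finset.sum_congr rfl fun m _ => ?_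
      rw [Finsupp.smul_apply, smul_eq_mul, Nat.cast_mul]
    have h3 : ∑ m ∈ A, ((r m : ℝ) * ((k : ℝ)⁻¹ * (m i : ℝ) - B)) =
        (k : ℝ)⁻¹ * (Λ i : ℝ) - N * B := by
      rw [h2, hN, Finset.mul_sum]
      push_cast
      rw [Finset.sum_mul, ← Finset.sum_sub_distrib]
      refine Finset.sum_congr rfl fun m _ => ?_
      ring
    rw [h1, h3]
    field_simp
    ring
  -- the integer vector
  have hdiv : ∀ i, ∃ z : ℤ, ((m i : ℤ) - (a * Λ i : ℕ) : ℤ) = q * z := by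
    intro i
    have h1 : (m i : ZMod q) = ((a * Λ i : ℕ) : ZMod q) := congrFun hcl i
    have h2 : (((m i : ℤ) - ((a * Λ i : ℕ) : ℤ) : ℤ) : ZMod q) = 0 := by
      rw [Int.cast_sub, Int.cast_natCast, Int.cast_natCast, h1, sub_self]
    rw [ZMod.intCast_zmod_eq_zero_iff_dvd] at h2
    exact h2
  choose z hz using hdiv
  have hzr : (fun i => (z i : ℝ)) = ((a : ℝ) * N * k / q) • (Y - c) := by
    funext i
    have h1 : ((m i : ℝ) - a * Λ i) = q * z i := by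
      have := hz i
      have h2 : (((m i : ℤ) - ((a * Λ i : ℕ) : ℤ) : ℤ) : ℝ) = ((q * z i : ℤ) : ℝ) := by rw [this]
      push_cast at h2
      exact h2
    have h3 : (m i : ℝ) = a * N * y i := by
      have := congrFun hym i
      simp only [Pi.smul_apply, smul_eq_mul, toR] at this
      rw [← this, ← hN]; push_cast; ring
    have h4 : Y i = (k : ℝ)⁻¹ * y i - B := rfl
    have h5 : y i = k * (Y i + B) := by
      rw [h4]; field_simp; ring
    simp only [Pi.smul_apply, Pi.sub_apply, smul_eq_mul]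
    rw [div_mul_eq_mul_div, eq_div_iff hq'.ne', mul_comm (z i : ℝ), ← h1, h3, hΛc i, h5]
    ring
  set θ : ℝ := (a : ℝ) * N * k / q with hθ
  have hθ0 : 0 ≤ θ := by positivity
  have hθ1 : θ ≤ 1 - ε := by
    rw [hθ, div_le_iff₀ hq']
    linarith
  have hint : (fun i => (z i : ℝ)) ∈ interior K := by
    rw [hzr]
    have h1 : 0 < 1 - θ := by linarith
    have h2 : θ • (Y - c) = θ • Y + (1 - θ) • (-(θ / (1 - θ)) • c) := by
      rw [smul_smul, mul_neg, mul_div_cancel₀ _ h1.ne', smul_sub, neg_smul]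
      abel
    rw [h2]
    have h3 : (-(θ / (1 - θ)) • c) ∈ interior K := by
      have hb : Metric.ball (0 : Fin d → ℝ) δ ⊆ interior K :=
        interior_maximal hball Metric.isOpen_ball
      apply hb
      rw [mem_ball_zero_iff, norm_smul, norm_neg, Real.norm_eq_abs, abs_of_nonneg (by positivity)]
      have h4 : θ / (1 - θ) ≤ 1 / ε := by
        apply div_le_div₀ zero_le_one (by linarith) hε (by linarith)
      calc θ / (1 - θ) * ‖c‖ ≤ 1 / ε * ‖c‖ := mul_le_mul_of_nonneg_right h4 (norm_nonneg _)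
        _ < 1 / ε * (ε * δ) := by
            apply mul_lt_mul_of_pos_left hc (by positivity)
        _ = δ := by field_simp
    exact hKc.combo_self_interior_mem_interior hyK h3 hθ0 h1 (by ring)
  have hz0 := hL z hint
  ext i
  have h1 := hz i
  rw [hz0] at h1
  simp only [Pi.zero_apply, mul_zero] at h1
  have h2 : (m i : ℤ) = ((a * Λ i : ℕ) : ℤ) := by linarith
  have h3 : m i = a * Λ i := by exact_mod_cast h2
  rw [h3]
  rfl

/-- first limit `q → ∞` -/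
theorem lim1_w (hd : 1 ≤ d) {K : Set (Fin d → ℝ)} (hKc : Convex ℝ K)
    (hL : ∀ z : Fin d → ℤ, (fun i => (z i : ℝ)) ∈ interior K → z = 0)
    {k B : ℕ} (hk : 1 ≤ k) {ε δ : ℝ} (hε : 0 < ε) (hε1 : ε < 1)
    (hδ : 0 < δ) (hball : Metric.ball (0 : Fin d → ℝ) δ ⊆ K)
    (A : Finset (Fin d →₀ ℕ)) (hAK : ∀ m ∈ A, pt k B m ∈ K)
    (r : (Fin d →₀ ℕ) → ℕ) (R : ℕ) (hr : ∀ l ∈ A, r l ≤ R) (hA0 : 0 < ∑ m ∈ A, r m)
    (hc : ‖((∑ m ∈ A, r m : ℕ) : ℝ)⁻¹ • ∑ m ∈ A, (r m : ℝ) • pt k B m‖ < ε * δ)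
    (J : ℕ) :
    (1 - ε) * ((J : ℝ) * (∑ m ∈ A, r m : ℕ) - R * ((J + d).choose (d + 1) : ℕ)) ≤
      d * (k * (∑ m ∈ A, r m : ℕ)) := by
  set N : ℝ := ((∑ m ∈ A, r m : ℕ) : ℝ) with hN
  set X : ℝ := (J : ℝ) * N - R * ((J + d).choose (d + 1) : ℕ) with hX
  have hk' : (0 : ℝ) < k := by positivity
  have hN' : (0 : ℝ) < N := by rw [hN]; exact_mod_cast hA0
  rcases le_or_gt X 0 with hX0 | hX0
  · have h1 : (1 - ε) * X ≤ 0 := mul_nonpos_of_nonneg_of_nonpos (by linarith) hX0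
    exact h1.trans (by positivity)
  by_contra hcon
  push Not at hcon
  set κ : ℝ := (1 - ε) * X / (k * N) - d with hκ
  have hκ0 : 0 < κ := by
    rw [hκ, sub_pos, lt_div_iff₀ (by positivity)]
    exact hcon
  have hall : ∀ e : ℕ, (2 : ℝ) ^ e * κ ≤ X := by
    intro e
    set a : ℕ := ⌊(1 - ε) * (2 : ℝ) ^ e / (k * N)⌋₊ with ha
    have hnn : 0 ≤ (1 - ε) * (2 : ℝ) ^ e / (k * N) := by
      have : 0 ≤ 1 - ε := by linarith
      positivity
    have ha1 : (a : ℝ) ≤ (1 - ε) * (2 : ℝ) ^ e / (k * N) := Nat.floor_le hnn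
    have ha2 : (1 - ε) * (2 : ℝ) ^ e / (k * N) - 1 < a := by
      have := Nat.lt_floor_add_one ((1 - ε) * (2 : ℝ) ^ e / (k * N))
      linarith
    have h1 := disc_w hd hKc hL hk hε hε1 hδ hball A hAK r R hr hA0 hc e (2 ^ e) a J rfl (by
      rw [le_div_iff₀ (by positivity)] at ha1
      push_cast
      have h7 : (a : ℝ) * ((∑ m ∈ A, (r m : ℝ)) * k) = a * (k * N) := by
        rw [hN]; push_cast; ring
      rw [h7]
      exact ha1)
    have h2 : (a : ℝ) * X ≤ d * (2 : ℝ) ^ e := by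
      have h3 : ((a * (J * ∑ m ∈ A, r m) : ℕ) : ℝ) ≤
          ((a * (R * (J + d).choose (d + 1)) + d * (2 ^ e - 1) : ℕ) : ℝ) := by exact_mod_cast h1
      have h4 : ((d * (2 ^ e - 1) : ℕ) : ℝ) ≤ d * (2 : ℝ) ^ e := by
        have : d * (2 ^ e - 1) ≤ d * 2 ^ e := Nat.mul_le_mul_left _ (Nat.sub_le _ _)
        exact_mod_cast this
      rw [Nat.cast_add] at h3
      have h5 : ((a * (J * ∑ m ∈ A, r m) : ℕ) : ℝ) = a * (J * N) := by
        rw [hN]; push_cast; ring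
      have h6 : ((a * (R * (J + d).choose (d + 1)) : ℕ) : ℝ) =
          a * (R * ((J + d).choose (d + 1) : ℕ)) := by push_cast; ring
      rw [h5, h6] at h3
      rw [hX]
      linarith
    have h5 : ((1 - ε) * (2 : ℝ) ^ e / (k * N) - 1) * X ≤ d * (2 : ℝ) ^ e :=
      (mul_le_mul_of_nonneg_right ha2.le hX0.le).trans h2
    have h6 : (2 : ℝ) ^ e * κ = (1 - ε) * (2 : ℝ) ^ e / (k * N) * X - d * (2 : ℝ) ^ e := by
      rw [hκ]; ring
    rw [h6]
    linarith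
  obtain ⟨e, he⟩ := pow_unbounded_of_one_lt (X / κ) (one_lt_two : (1 : ℝ) < 2)
  rw [div_lt_iff₀ hκ0] at he
  exact absurd (hall e) (not_le.2 he)

end Pool.Agent.H906.EhrW
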