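import Pool.Agent.H912R3.Ehr.Lim

/-!
# Volume bound for weights on lattice point free bodies: the family of polynomials

Weighted versions of `exists_family` and `key` of `Pool.Agent.H912R3.Ehr.Fam`.
-/

set_option autoImplicit false

open MvPolynomial
open scoped Pointwise

namespace Pool.Agent.H906.EhrW

open Pool.Agent.H912R3.Ehr

variable {d : ℕ} {F : Type} [Field F]

/-- polynomials with prescribed leading exponents and large total order of vanishing -/
theorem exists_family' (hd : 1 ≤ d) (A : Finset (Fin d →₀ ℕ)) (J : ℕ) :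
    ∃ (s : (Fin d →₀ ℕ) → MvPolynomial (Fin d) F) (jj : (Fin d →₀ ℕ) → ℕ),
      (∀ l ∈ A, Good F A (jj l) l (s l)) ∧ (∀ l, jj l ≤ J) ∧
      J * A.card ≤ ∑ l ∈ A, jj l + (J + d).choose (d + 1) := by
  classical
  let P : ℕ → (Fin d →₀ ℕ) → Prop := fun j l => ∃ s, Good F A j l s
  have hP0 : ∀ l ∈ A, P 0 l := by
    intro l hl
    refine ⟨monomial l 1, ?_, ?_, ?_, fun _ hm => absurd hm (Nat.not_lt_zero _)⟩
    · exact fun h => one_ne_zero ((monomial_eq_zero).1 h)
    · intro m hm
      have := support_monomial_subset hm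
      rw [Finset.mem_singleton] at this
      rw [this]; exact hl
    · rw [(mo d).degree_monomial, if_neg one_ne_zero]
  let jj : (Fin d →₀ ℕ) → ℕ := fun l => Nat.findGreatest (fun j => P j l) J
  have hjj : ∀ l ∈ A, P (jj l) l := fun l hl =>
    Nat.findGreatest_spec (P := fun j => P j l) (Nat.zero_le J) (hP0 l hl)
  choose! s hs using hjj
  refine ⟨s, jj, hs, fun l => Nat.findGreatest_le J, ?_⟩
  -- counting
  have hcount : ∀ j ∈ Finset.range J, A.card ≤ (A.filter fun l => P (j + 1) l).card +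
      (j + d).choose d := by
    intro j _
    have h1 := count (F := F) A (j + 1) (A.filter fun l => P (j + 1) l)
      (fun l hl h => Finset.mem_filter.2 ⟨hl, h⟩)
    exact h1.trans (Nat.add_le_add_left (card_low hd j) _)
  have h2 : ∀ l ∈ A, ((Finset.range J).filter fun j => P (j + 1) l).card ≤ jj l := by
    intro l _
    have : ((Finset.range J).filter fun j => P (j + 1) l) ⊆ Finset.range (jj l) := by
      intro j hj
      rw [Finset.mem_filter, Finset.mem_range] at hj
      rw [Finset.mem_range]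
      exact Nat.le_findGreatest (by omega) hj.2
    exact (Finset.card_le_card this).trans (by rw [Finset.card_range])
  calc J * A.card = ∑ _j ∈ Finset.range J, A.card := by
        rw [Finset.sum_const, Finset.card_range, smul_eq_mul]
    _ ≤ ∑ j ∈ Finset.range J, ((A.filter fun l => P (j + 1) l).card + (j + d).choose d) :=
        Finset.sum_le_sum hcount
    _ = ∑ j ∈ Finset.range J, (A.filter fun l => P (j + 1) l).card +
          ∑ j ∈ Finset.range J, (j + d).choose d := Finset.sum_add_distrib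
    _ ≤ _ := by
        refine Nat.add_le_add ?_ ?_
        · calc ∑ j ∈ Finset.range J, (A.filter fun l => P (j + 1) l).card
              = ∑ j ∈ Finset.range J, ∑ l ∈ A, (if P (j + 1) l then 1 else 0) := by
                refine Finset.sum_congr rfl fun j _ => ?_
                rw [Finset.card_filter]
            _ = ∑ l ∈ A, ∑ j ∈ Finset.range J, (if P (j + 1) l then 1 else 0) :=
                Finset.sum_comm
            _ = ∑ l ∈ A, ((Finset.range J).filter fun j => P (j + 1) l).card := by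
                refine Finset.sum_congr rfl fun l _ => ?_
                rw [Finset.card_filter]
            _ ≤ ∑ l ∈ A, jj l := Finset.sum_le_sum h2
        · rcases Nat.eq_zero_or_pos J with rfl | hJ
          · simp
          · obtain ⟨J', rfl⟩ := Nat.exists_eq_succ_of_ne_zero hJ.ne'
            rw [Nat.succ_eq_add_one, Nat.sum_range_add_choose]
            apply le_of_eq
            congr 1
            omega

/-- the weighted count -/
theorem weighted (A : Finset (Fin d →₀ ℕ)) (jj r : (Fin d →₀ ℕ) → ℕ) (J R c : ℕ)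
    (hjj : ∀ l, jj l ≤ J) (hr : ∀ l ∈ A, r l ≤ R) (h : J * A.card ≤ ∑ l ∈ A, jj l + c) :
    J * ∑ l ∈ A, r l ≤ ∑ l ∈ A, r l * jj l + R * c := by
  have h1 : ∑ l ∈ A, (J - jj l) + ∑ l ∈ A, jj l = J * A.card := by
    rw [← Finset.sum_add_distrib, Finset.sum_congr rfl fun l _ => Nat.sub_add_cancel (hjj l),
      Finset.sum_const, smul_eq_mul, mul_comm]
  have h2 : ∑ l ∈ A, (J - jj l) ≤ c := by omega
  have h3 : J * ∑ l ∈ A, r l = ∑ l ∈ A, r l * jj l + ∑ l ∈ A, r l * (J - jj l) := by
    rw [← Finset.sum_add_distrib, Finset.mul_sum]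
    refine Finset.sum_congr rfl fun l _ => ?_
    rw [← Nat.mul_add, Nat.add_sub_cancel' (hjj l), mul_comm]
  rw [h3]
  refine Nat.add_le_add_left ?_ _
  calc ∑ l ∈ A, r l * (J - jj l) ≤ ∑ l ∈ A, R * (J - jj l) :=
        Finset.sum_le_sum fun l hl => Nat.mul_le_mul_right _ (hr l hl)
    _ = R * ∑ l ∈ A, (J - jj l) := by rw [Finset.mul_sum]
    _ ≤ R * c := Nat.mul_le_mul_left _ h2

theorem supp_prod_pow {C : Set (Fin d → ℝ)} (hC : Convex ℝ C) (hC' : C.Nonempty)
    (T : Finset (Fin d →₀ ℕ)) (s : (Fin d →₀ ℕ) → MvPolynomial (Fin d) F) (r : (Fin d →₀ ℕ) → ℕ)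
    (h : ∀ i ∈ T, Supp C 1 (s i)) : Supp C (∑ l ∈ T, r l) (∏ i ∈ T, s i ^ r i) := by
  classical
  induction T using Finset.induction_on with
  | empty => simpa using Supp.one hC'
  | insert i T hi ih =>
    rw [Finset.sum_insert hi, Finset.prod_insert hi]
    have h1 := (h i (Finset.mem_insert_self _ _)).pow hC hC' (r i)
    rw [mul_one] at h1
    exact h1.mul hC (ih fun k hk => h k (Finset.mem_insert_of_mem hk))

/-- **The key inequality**, with multiplicities. -/
theorem key_w {p : ℕ} [Fact p.Prime] (hd : 1 ≤ d) (A : Finset (Fin d →₀ ℕ))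
    (C : Set (Fin d → ℝ)) (hC : Convex ℝ C) (hC' : C.Nonempty) (hA : ∀ l ∈ A, toR l ∈ C)
    (r : (Fin d →₀ ℕ) → ℕ) (R : ℕ) (hr : ∀ l ∈ A, r l ≤ R)
    (e q a J : ℕ) (hq : q = p ^ e)
    (huniq : ∀ m : Fin d →₀ ℕ, toR m ∈ ((a * ∑ l ∈ A, r l : ℕ) : ℝ) • C →
      cls q m = cls q (a • ∑ l ∈ A, r l • l) → m = a • ∑ l ∈ A, r l • l) :
    a * (J * ∑ l ∈ A, r l) ≤ a * (R * (J + d).choose (d + 1)) + d * (q - 1) := by
  classical
  obtain ⟨s, jj, hs, hjJ, hJ0⟩ := exists_family' (F := ZMod p) hd A J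
  have hJ := weighted A jj r J R _ hjJ hr hJ0
  set f : MvPolynomial (Fin d) (ZMod p) := ∏ l ∈ A, s l ^ r l with hf
  set g := f ^ a with hg
  have hpne : ∀ l ∈ A, s l ^ r l ≠ 0 := fun l hl => pow_ne_zero _ (hs l hl).1
  have hfne : f ≠ 0 := Finset.prod_ne_zero_iff.2 hpne
  have hgne : g ≠ 0 := pow_ne_zero _ hfne
  have hfd : (mo d).degree f = ∑ l ∈ A, r l • l := by
    rw [hf, (mo d).degree_prod hpne]
    refine Finset.sum_congr rfl fun l hl => ?_
    rw [(mo d).degree_pow, (hs l hl).2.2.1]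
  have hgd : (mo d).degree g = a • ∑ l ∈ A, r l • l := by
    rw [hg, (mo d).degree_pow, hfd]
  have hgc : coeff (a • ∑ l ∈ A, r l • l) g ≠ 0 := by
    rw [← hgd]
    exact (mo d).coeff_degree_ne_zero_iff.2 hgne
  have hgV : Van (a * ∑ l ∈ A, r l * jj l) g :=
    (Van.prod A (fun l => r l * jj l) (fun l => s l ^ r l)
      fun l hl => (hs l hl).2.2.2.pow (r l)).pow a
  have hsupp1 : ∀ l ∈ A, Supp C 1 (s l) := by
    intro l hl m hm
    rw [Nat.cast_one, one_smul]
    exact hA m ((hs l hl).2.1 hm)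
  have hgS : Supp C (a * ∑ l ∈ A, r l) g :=
    (supp_prod_pow hC hC' A s r hsupp1).pow hC hC' a
  have hfold : fold q (cls q (a • ∑ l ∈ A, r l • l)) g = coeff (a • ∑ l ∈ A, r l • l) g := by
    refine fold_apply q _ g _ rfl fun m hm hcl => ?_
    exact huniq m (hgS m hm) hcl
  have hnot : ¬ (d * (q - 1) + 1 ≤ a * ∑ l ∈ A, r l * jj l) := by
    intro hle
    apply hgc
    rw [← hfold]
    exact fold_eq_zero (p := p) e q hq _ g (hgV.mono hle)
  push Not at hnot
  calc a * (J * ∑ l ∈ A, r l) ≤ a * (∑ l ∈ A, r l * jj l + R * (J + d).choose (d + 1)) :=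
        Nat.mul_le_mul_left _ hJ
    _ = a * ∑ l ∈ A, r l * jj l + a * (R * (J + d).choose (d + 1)) := by ring
    _ ≤ _ := by omega

end Pool.Agent.H906.EhrW
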