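import Pool.Agent.H906.EhrW.Disc

/-!
# Volume bound for weights on lattice point free bodies: the limits
-/

set_option autoImplicit false

open scoped Pointwise Topology
open Set MeasureTheory Filter Module

namespace Pool.Agent.H906.EhrW

open Pool.Agent.H912R3.Ehr

variable {d : ℕ}

/-- the weighted sums over the grid converge -/
theorem lims_w {K : Set (Fin d → ℝ)} (hK : IsCompact K) (hKc : Convex ℝ K) {B : ℕ}
    (hB : ∀ x ∈ K, ∀ i, |x i| ≤ B) (A : ℕ → Finset (Fin d →₀ ℕ))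
    (hA : ∀ k (hk : 1 ≤ k), A k = AA K k B hk hB) (g : (Fin d → ℝ) → ℝ) (hg : Continuous g) :
    Tendsto (fun k : ℕ => (∑ m ∈ A k, g (pt k B m)) / k ^ d) atTop (𝓝 (∫ x in K, g x)) := by
  classical
  have hb : Bornology.IsBounded K := hK.isBounded
  have hm : MeasurableSet K := hK.measurableSet
  have hf : volume (frontier K) = 0 := hKc.addHaar_frontier volume
  have h1 := tendsto_tsum_div_pow_atTop_integral K g hg hb hm hf
  rw [Fintype.card_fin] at h1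
  refine h1.congr' ?_
  filter_upwards [eventually_ge_atTop 1] with k hk
  rw [grid_eq hk hB (A k) (hA k hk)]
  rw [Finset.tsum_subtype' (A k |>.image (pt k B)) g,
    Finset.sum_image fun x _ y _ h => pt_injective hk B h]

/-- rounding down the weights does not change the limit -/
theorem lims_r {K : Set (Fin d → ℝ)} (hK : IsCompact K) (hKc : Convex ℝ K) {B : ℕ}
    (hB : ∀ x ∈ K, ∀ i, |x i| ≤ B) (A : ℕ → Finset (Fin d →₀ ℕ))
    (hA : ∀ k (hk : 1 ≤ k), A k = AA K k B hk hB) (g : (Fin d → ℝ) → ℝ) (hg : Continuous g)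
    (hg0 : ∀ x, 0 ≤ g x) (u : (Fin d → ℝ) → ℝ) (hu : Continuous u) (M : ℝ)
    (hM : ∀ x ∈ K, |u x| ≤ M) :
    Tendsto (fun k : ℕ => (∑ m ∈ A k, ((⌊(k : ℝ) * g (pt k B m)⌋₊ : ℕ) : ℝ) * u (pt k B m)) /
      k ^ (d + 1)) atTop (𝓝 (∫ x in K, g x * u x)) := by
  have h1 := lims_w hK hKc hB A hA (fun x => g x * u x) (hg.mul hu)
  have h2 := lims_w hK hKc hB A hA (fun _ => M) continuous_const
  have h3 : Tendsto (fun k : ℕ => (∑ _m ∈ A k, M) / (k : ℝ) ^ d * (1 / (k : ℝ))) atTop (𝓝 0) := by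
    have h4 := h2.mul (tendsto_one_div_atTop_nhds_zero_nat (𝕜 := ℝ))
    rw [mul_zero] at h4
    exact h4
  have h5 : Tendsto (fun k : ℕ => (∑ m ∈ A k, ((⌊(k : ℝ) * g (pt k B m)⌋₊ : ℕ) : ℝ) *
      u (pt k B m)) / k ^ (d + 1) - (∑ m ∈ A k, g (pt k B m) * u (pt k B m)) / (k : ℝ) ^ d)
      atTop (𝓝 0) := by
    refine squeeze_zero_norm' ?_ h3
    filter_upwards [eventually_ge_atTop 1] with k hk
    have hk' : (0 : ℝ) < k := by positivity
    have hkd : (0 : ℝ) < (k : ℝ) ^ d := by positivity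
    have e1 : (∑ m ∈ A k, ((⌊(k : ℝ) * g (pt k B m)⌋₊ : ℕ) : ℝ) * u (pt k B m)) /
        (k : ℝ) ^ (d + 1) - (∑ m ∈ A k, g (pt k B m) * u (pt k B m)) / (k : ℝ) ^ d =
        (∑ m ∈ A k, (((⌊(k : ℝ) * g (pt k B m)⌋₊ : ℕ) : ℝ) - k * g (pt k B m)) *
          u (pt k B m)) / (k : ℝ) ^ d * (1 / (k : ℝ)) := by
      have e2 : ∑ m ∈ A k, (((⌊(k : ℝ) * g (pt k B m)⌋₊ : ℕ) : ℝ) - k * g (pt k B m)) *
          u (pt k B m) = ∑ m ∈ A k, ((⌊(k : ℝ) * g (pt k B m)⌋₊ : ℕ) : ℝ) * u (pt k B m) -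
          k * ∑ m ∈ A k, g (pt k B m) * u (pt k B m) := by
        rw [Finset.mul_sum, ← Finset.sum_sub_distrib]
        exact Finset.sum_congr rfl fun m _ => by ring
      rw [e2, pow_succ]
      field_simp
    rw [e1, Real.norm_eq_abs, abs_mul, abs_div, abs_of_pos hkd,
      abs_of_pos (by positivity : (0 : ℝ) < 1 / k)]
    refine mul_le_mul_of_nonneg_right (div_le_div_of_nonneg_right ?_ hkd.le) (by positivity)
    refine (Finset.abs_sum_le_sum_abs _ _).trans (Finset.sum_le_sum fun m hm => ?_)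
    have hmK : pt k B m ∈ K := by
      rw [hA k hk, mem_AA] at hm
      exact hm
    rw [abs_mul]
    have h6 : |((⌊(k : ℝ) * g (pt k B m)⌋₊ : ℕ) : ℝ) - k * g (pt k B m)| ≤ 1 := by
      have h7 := Nat.floor_le (mul_nonneg hk'.le (hg0 (pt k B m)))
      have h8 := Nat.lt_floor_add_one ((k : ℝ) * g (pt k B m))
      rw [abs_le]
      constructor <;> linarith
    calc |((⌊(k : ℝ) * g (pt k B m)⌋₊ : ℕ) : ℝ) - k * g (pt k B m)| * |u (pt k B m)|
        ≤ 1 * M := mul_le_mul h6 (hM _ hmK) (abs_nonneg _) zero_le_one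
      _ = M := one_mul _
  have h6 := h5.add h1
  rw [zero_add] at h6
  refine h6.congr fun k => ?_
  ring

/-- the bound for continuous weights, with error terms -/
theorem cont_bound (hd : 1 ≤ d) {K : Set (Fin d → ℝ)} (hK : IsCompact K) (hKc : Convex ℝ K)
    (hL : ∀ z : Fin d → ℤ, (fun i => (z i : ℝ)) ∈ interior K → z = 0)
    {ε δ : ℝ} (hε : 0 < ε) (hε1 : ε < 1) (hδ : 0 < δ)
    (hball : Metric.ball (0 : Fin d → ℝ) δ ⊆ K) (g : (Fin d → ℝ) → ℝ) (hg : Continuous g)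
    (hg0 : ∀ x, 0 ≤ g x) (hg1 : ∀ x, g x ≤ 1) (V : ℝ) (hV : V = ∫ x in K, g x) (hV0 : 0 < V)
    (hc : ‖(fun i => V⁻¹ * ∫ x in K, g x * x i : Fin d → ℝ)‖ < ε * δ) :
    (1 - ε) * (((d : ℝ) + 1) * V - ((d : ℝ) + 1) ^ (d + 1) / (d + 1).factorial) ≤ d * V := by
  classical
  -- a bound for the coordinates
  obtain ⟨R, hR⟩ := hK.isBounded.subset_closedBall (0 : Fin d → ℝ)
  obtain ⟨B, hB0⟩ := exists_nat_ge R
  have hB : ∀ x ∈ K, ∀ i, |x i| ≤ B := by
    intro x hx i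
    have h1 := hR hx
    rw [mem_closedBall_zero_iff] at h1
    exact ((norm_le_pi_norm x i).trans h1).trans hB0
  let A : ℕ → Finset (Fin d →₀ ℕ) := fun k => if hk : 1 ≤ k then AA K k B hk hB else ∅
  have hA : ∀ k (hk : 1 ≤ k), A k = AA K k B hk hB := fun k hk => dif_pos hk
  let r : ℕ → (Fin d →₀ ℕ) → ℕ := fun k m => ⌊(k : ℝ) * g (pt k B m)⌋₊
  let N : ℕ → ℕ := fun k => ∑ m ∈ A k, r k m
  have hr : ∀ k m, r k m ≤ k := by
    intro k m
    apply Nat.floor_le_of_le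
    calc (k : ℝ) * g (pt k B m) ≤ k * 1 := mul_le_mul_of_nonneg_left (hg1 _) (Nat.cast_nonneg k)
      _ = k := mul_one _
  have hN : Tendsto (fun k : ℕ => (N k : ℝ) / (k : ℝ) ^ (d + 1)) atTop (𝓝 V) := by
    have h1 := lims_r hK hKc hB A hA g hg hg0 (fun _ => 1) continuous_const 1
      (fun _ _ => by simp)
    simp only [mul_one] at h1
    rw [hV]
    refine h1.congr fun k => ?_
    show _ = ((∑ m ∈ A k, r k m : ℕ) : ℝ) / _
    push_cast
    rfl
  have hsum : ∀ i, Tendsto (fun k : ℕ => (∑ m ∈ A k, (r k m : ℝ) * pt k B m i) /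
      (k : ℝ) ^ (d + 1)) atTop (𝓝 (∫ x in K, g x * x i)) := by
    intro i
    exact lims_r hK hKc hB A hA g hg hg0 (fun x => x i) (continuous_apply i) B
      (fun x hx => hB x hx i)
  -- the barycentres converge
  have hbar : Tendsto (fun k : ℕ => ((N k : ℝ)⁻¹) • ∑ m ∈ A k, (r k m : ℝ) • pt k B m) atTop
      (𝓝 (fun i => V⁻¹ * ∫ x in K, g x * x i : Fin d → ℝ)) := by
    rw [tendsto_pi_nhds]
    intro i
    have h1 := (hsum i).div hN hV0.ne'
    have h2 : (∫ x in K, g x * x i) / V = V⁻¹ * ∫ x in K, g x * x i := by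
      rw [div_eq_inv_mul]
    rw [h2] at h1
    refine h1.congr' ?_
    filter_upwards [eventually_ge_atTop 1] with k hk
    have hk' : (0 : ℝ) < (k : ℝ) ^ (d + 1) := by positivity
    rw [Pi.smul_apply, Finset.sum_apply, smul_eq_mul, Pi.div_apply]
    simp only [Pi.smul_apply, smul_eq_mul]
    rcases Nat.eq_zero_or_pos (N k) with h | h
    · have : (N k : ℝ) = 0 := by rw [h]; simp
      rw [this]
      simp
    · have : (0 : ℝ) < N k := by exact_mod_cast h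
      field_simp
  have hev : ∀ᶠ k : ℕ in atTop,
      (1 - ε) * (((d : ℝ) + 1) * ((N k : ℝ) / (k : ℝ) ^ (d + 1)) -
        (((d : ℝ) + 1) + (d : ℝ) / k) ^ (d + 1) / (d + 1).factorial) ≤
        d * ((N k : ℝ) / (k : ℝ) ^ (d + 1)) := by
    have h1 : ∀ᶠ k : ℕ in atTop,
        ‖((N k : ℝ)⁻¹) • ∑ m ∈ A k, (r k m : ℝ) • pt k B m‖ < ε * δ :=
      hbar.norm.eventually (gt_mem_nhds hc)
    have h2 : ∀ᶠ k : ℕ in atTop, 0 < (N k : ℝ) / (k : ℝ) ^ (d + 1) :=
      hN.eventually (lt_mem_nhds hV0)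
    filter_upwards [h1, h2, eventually_ge_atTop 1] with k hc hpos hk
    have hk' : (0 : ℝ) < k := by positivity
    have hkd : (0 : ℝ) < (k : ℝ) ^ (d + 1) := by positivity
    have hA0 : 0 < N k := by
      rcases Nat.eq_zero_or_pos (N k) with h | h
      · rw [h] at hpos; simp at hpos
      · exact h
    have hAK : ∀ m ∈ A k, pt k B m ∈ K := by
      intro m hm
      rw [hA k hk, mem_AA] at hm
      exact hm
    have h3 := lim1_w hd hKc hL hk hε hε1 hδ hball (A k) hAK (r k) k (fun l _ => hr k l) hA0 hc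
      ((d + 1) * k)
    have h4 : ((((d + 1) * k + d).choose (d + 1) : ℕ) : ℝ) ≤
        ((((d + 1) * k + d : ℕ) : ℝ)) ^ (d + 1) / (d + 1).factorial :=
      Nat.choose_le_pow_div (d + 1) ((d + 1) * k + d)
    have h5 : ((((d + 1) * k + d : ℕ) : ℝ)) ^ (d + 1) =
        (((d : ℝ) + 1) + (d : ℝ) / k) ^ (d + 1) * (k : ℝ) ^ (d + 1) := by
      rw [← mul_pow]
      congr 1
      push_cast
      field_simp
    rw [h5] at h4
    have h3' : (1 - ε) * ((((d + 1) * k : ℕ) : ℝ) * (N k : ℝ) -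
        k * ((((d + 1) * k + d).choose (d + 1) : ℕ) : ℝ)) ≤ d * (k * (N k : ℝ)) := h3
    have h6 : (1 - ε) * (((d : ℝ) + 1) * k * (N k : ℝ) -
        k * ((((d : ℝ) + 1) + (d : ℝ) / k) ^ (d + 1) * (k : ℝ) ^ (d + 1) / (d + 1).factorial)) ≤
        d * (k * (N k : ℝ)) := by
      have h7 : (1 - ε) * (((d : ℝ) + 1) * k * (N k : ℝ) -
        k * ((((d : ℝ) + 1) + (d : ℝ) / k) ^ (d + 1) * (k : ℝ) ^ (d + 1) / (d + 1).factorial)) ≤
        (1 - ε) * ((((d + 1) * k : ℕ) : ℝ) * (N k : ℝ) -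
          k * ((((d + 1) * k + d).choose (d + 1) : ℕ) : ℝ)) := by
        apply mul_le_mul_of_nonneg_left _ (by linarith)
        have h8 := mul_le_mul_of_nonneg_left h4 hk'.le
        push_cast at h8 ⊢
        linarith
      exact h7.trans h3'
    have hkk : (0 : ℝ) < (k : ℝ) ^ (d + 1) * k := by positivity
    have e1 : (1 - ε) * (((d : ℝ) + 1) * ((N k : ℝ) / (k : ℝ) ^ (d + 1)) -
        (((d : ℝ) + 1) + (d : ℝ) / k) ^ (d + 1) / (d + 1).factorial) * ((k : ℝ) ^ (d + 1) * k) =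
        (1 - ε) * (((d : ℝ) + 1) * k * (N k : ℝ) -
        k * ((((d : ℝ) + 1) + (d : ℝ) / k) ^ (d + 1) * (k : ℝ) ^ (d + 1) / (d + 1).factorial)) := by
      field_simp
    have e2 : d * ((N k : ℝ) / (k : ℝ) ^ (d + 1)) * ((k : ℝ) ^ (d + 1) * k) =
        d * (k * (N k : ℝ)) := by
      field_simp
    refine le_of_mul_le_mul_right ?_ hkk
    rw [e1, e2]
    exact h6
  have hl1 : Tendsto (fun k : ℕ => (1 - ε) * (((d : ℝ) + 1) * ((N k : ℝ) / (k : ℝ) ^ (d + 1)) -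
        (((d : ℝ) + 1) + (d : ℝ) / k) ^ (d + 1) / (d + 1).factorial)) atTop
      (𝓝 ((1 - ε) * (((d : ℝ) + 1) * V - (((d : ℝ) + 1) + 0) ^ (d + 1) / (d + 1).factorial))) := by
    refine Tendsto.const_mul _ ((hN.const_mul _).sub (Tendsto.div_const ?_ _))
    exact ((tendsto_const_nhds).add (tendsto_const_div_atTop_nhds_zero_nat (d : ℝ))).pow _
  have hl2 : Tendsto (fun k : ℕ => (d : ℝ) * ((N k : ℝ) / (k : ℝ) ^ (d + 1))) atTop (𝓝 (d * V)) :=
    hN.const_mul _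
  have := le_of_tendsto_of_tendsto hl1 hl2 hev
  rwa [add_zero] at this

end Pool.Agent.H906.EhrW
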