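import Pool.Agent.H906.EhrW.Lim

/-!
# Volume bound for measurable weights on lattice point free bodies
-/

set_option autoImplicit false

open scoped Pointwise Topology
open Set MeasureTheory Filter Module

namespace Pool.Agent.H906.EhrW

open Pool.Agent.H912R3.Ehr

variable {d : ℕ}

theorem approx {K : Set (Fin d → ℝ)} (hK : IsCompact K) {f : (Fin d → ℝ) → ℝ}
    (hf : IntegrableOn f K) (hf01 : ∀ x ∈ K, 0 ≤ f x ∧ f x ≤ 1) {η : ℝ} (hη : 0 < η) :
    ∃ g : (Fin d → ℝ) → ℝ, Continuous g ∧ (∀ x, 0 ≤ g x) ∧ (∀ x, g x ≤ 1) ∧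
      ∫ x in K, |f x - g x| ≤ η := by
  haveI : IsFiniteMeasure (volume.restrict K) := ⟨by simpa using hK.measure_lt_top⟩
  obtain ⟨g0, hg0, hgi⟩ := Integrable.exists_boundedContinuous_integral_sub_le hf hη
  have hgc : Continuous (fun x => max 0 (min 1 (g0 x))) :=
    continuous_const.max (continuous_const.min g0.continuous)
  have hgi' : IntegrableOn (fun x => max 0 (min 1 (g0 x))) K :=
    hgc.continuousOn.integrableOn_compact hK
  refine ⟨fun x => max 0 (min 1 (g0 x)), hgc, fun x => le_max_left _ _,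
    fun x => max_le zero_le_one (min_le_left _ _), ?_⟩
  refine le_trans ?_ hg0
  refine setIntegral_mono_on ?_ ?_ hK.measurableSet fun x hx => ?_
  · exact (hf.sub hgi').abs
  · exact (Integrable.sub hf hgi).norm
  · rw [Real.norm_eq_abs]
    obtain ⟨h0, h1⟩ := hf01 x hx
    rw [abs_le]
    constructor
    · rcases le_total (f x) (g0 x) with h | h
      · rw [abs_of_nonpos (by linarith : f x - g0 x ≤ 0)]
        have : max 0 (min 1 (g0 x)) ≤ g0 x := max_le (by linarith) (min_le_right _ _)
        linarith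
      · rw [abs_of_nonneg (by linarith : 0 ≤ f x - g0 x)]
        have : max 0 (min 1 (g0 x)) ≤ f x := max_le h0 ((min_le_right _ _).trans h)
        linarith
    · rcases le_total (f x) (g0 x) with h | h
      · rw [abs_of_nonpos (by linarith : f x - g0 x ≤ 0)]
        have : f x ≤ max 0 (min 1 (g0 x)) := le_max_of_le_right (le_min h1 h)
        linarith
      · rw [abs_of_nonneg (by linarith : 0 ≤ f x - g0 x)]
        have : g0 x ≤ max 0 (min 1 (g0 x)) := le_max_of_le_right (le_min (by linarith) le_rfl)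
        linarith

/-- **The bound for measurable weights.** -/
theorem weight_bound (hd : 1 ≤ d) {K : Set (Fin d → ℝ)} (hK : IsCompact K) (hKc : Convex ℝ K)
    (h0 : (0 : Fin d → ℝ) ∈ interior K)
    (hL : ∀ z : Fin d → ℤ, (fun i => (z i : ℝ)) ∈ interior K → z = 0)
    {f : (Fin d → ℝ) → ℝ} (hf : IntegrableOn f K) (hf01 : ∀ x ∈ K, 0 ≤ f x ∧ f x ≤ 1)
    (hz : ∀ i, ∫ x in K, f x * x i = 0) :
    ∫ x in K, f x ≤ ((d : ℝ) + 1) ^ d / d.factorial := by
  classical
  set V : ℝ := ∫ x in K, f x with hV
  rcases le_or_gt V 0 with hV0 | hV0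
  · exact hV0.trans (by positivity)
  obtain ⟨δ, hδ, hball⟩ := Metric.mem_nhds_iff.1 (mem_interior_iff_mem_nhds.1 h0)
  obtain ⟨R, hR⟩ := hK.isBounded.subset_closedBall (0 : Fin d → ℝ)
  have hB : ∀ x ∈ K, ∀ i, |x i| ≤ R := by
    intro x hx i
    have h1 := hR hx
    rw [mem_closedBall_zero_iff] at h1
    exact (norm_le_pi_norm x i).trans h1
  have hR0 : 0 ≤ R := by
    have h1 := hR (interior_subset h0)
    rw [mem_closedBall_zero_iff, norm_zero] at h1
    exact h1
  -- the inequality for each `ε`
  have hε : ∀ ε : ℝ, 0 < ε → ε < 1 →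
      (1 - ε) * (((d : ℝ) + 1) * V - ((d : ℝ) + 1) ^ (d + 1) / (d + 1).factorial) ≤ d * V := by
    intro ε hε hε1
    have key : ∀ᶠ η : ℝ in 𝓝[>] 0, (1 - ε) * (((d : ℝ) + 1) * (V - η) -
        ((d : ℝ) + 1) ^ (d + 1) / (d + 1).factorial) ≤ d * (V + η) := by
      have hlim1 : Tendsto (fun η : ℝ => (V - η)⁻¹ * (R * η)) (𝓝[>] 0) (𝓝 ((V - 0)⁻¹ * (R * 0))) := by
        refine Tendsto.mono_left ?_ nhdsWithin_le_nhds
        refine Tendsto.mul ?_ (tendsto_id.const_mul R)
        refine (tendsto_const_nhds.sub tendsto_id).inv₀ ?_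
        rw [sub_zero]; exact hV0.ne'
      rw [mul_zero, mul_zero] at hlim1
      have h1 : ∀ᶠ η : ℝ in 𝓝[>] 0, (V - η)⁻¹ * (R * η) < ε * δ :=
        hlim1.eventually (gt_mem_nhds (by positivity))
      have h2 : ∀ᶠ η : ℝ in 𝓝[>] 0, η ∈ Ioo 0 V := Ioo_mem_nhdsGT hV0
      filter_upwards [h1, h2] with η hη1 hη2
      obtain ⟨g, hgc, hg0, hg1, hgη⟩ := approx hK hf hf01 hη2.1
      have hgi : IntegrableOn g K := hgc.continuousOn.integrableOn_compact hK
      have hfg : IntegrableOn (fun x => f x - g x) K := hf.sub hgi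
      set W : ℝ := ∫ x in K, g x with hW
      have hVW : |V - W| ≤ η := by
        rw [hV, hW, ← integral_sub hf hgi]
        exact (abs_integral_le_integral_abs).trans hgη
      have hVW' := abs_le.1 hVW
      have hW0 : 0 < W := by linarith [hη2.2]
      have hmom : ∀ i, |∫ x in K, g x * x i| ≤ R * η := by
        intro i
        have hi1 : IntegrableOn (fun x : Fin d → ℝ => f x * x i) K := by
          refine Integrable.mul_bdd (c := R) hf (continuous_apply i).aestronglyMeasurable ?_
          refine (ae_restrict_iff' hK.measurableSet).2 (Eventually.of_forall fun x hx => ?_)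
          rw [Real.norm_eq_abs]
          exact hB x hx i
        have hi2 : IntegrableOn (fun x : Fin d → ℝ => g x * x i) K :=
          (hgc.mul (continuous_apply i)).continuousOn.integrableOn_compact hK
        have e1 : ∫ x in K, g x * x i = -∫ x in K, (f x - g x) * x i := by
          have e2 : ∫ x in K, (f x - g x) * x i = (∫ x in K, f x * x i) - ∫ x in K, g x * x i := by
            rw [← integral_sub hi1 hi2]
            refine integral_congr_ae (Eventually.of_forall fun x => ?_)
            show (f x - g x) * x i = f x * x i - g x * x i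
            ring
          rw [e2, hz i]
          ring
        rw [e1, abs_neg]
        calc |∫ x in K, (f x - g x) * x i| ≤ ∫ x in K, |(f x - g x) * x i| :=
              abs_integral_le_integral_abs
          _ ≤ ∫ x in K, R * |f x - g x| := by
              refine setIntegral_mono_on ?_ (hfg.abs.const_mul R) hK.measurableSet fun x hx => ?_
              · have : IntegrableOn (fun x : Fin d → ℝ => (f x - g x) * x i) K := by
                  refine (hi1.sub hi2).congr (Eventually.of_forall fun x => ?_)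
                  show f x * x i - g x * x i = (f x - g x) * x i
                  ring
                exact this.abs
              · rw [abs_mul, mul_comm]
                exact mul_le_mul_of_nonneg_right (hB x hx i) (abs_nonneg _)
          _ = R * ∫ x in K, |f x - g x| := integral_const_mul _ _
          _ ≤ R * η := mul_le_mul_of_nonneg_left hgη hR0
      have hc : ‖(fun i => W⁻¹ * ∫ x in K, g x * x i : Fin d → ℝ)‖ < ε * δ := by
        refine lt_of_le_of_lt ?_ hη1
        have hVη : 0 < V - η := by linarith [hη2.2]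
        refine (pi_norm_le_iff_of_nonneg (by positivity [hη2.1])).2 fun i => ?_
        rw [Real.norm_eq_abs, abs_mul, abs_of_pos (inv_pos.2 hW0)]
        refine mul_le_mul ?_ (hmom i) (abs_nonneg _) (inv_pos.2 hVη).le
        exact inv_anti₀ hVη (by linarith)
      have h3 := cont_bound hd hK hKc hL hε hε1 hδ hball g hgc hg0 hg1 W hW hW0 hc
      have hd0 : (0 : ℝ) ≤ d := Nat.cast_nonneg d
      have h4 : (1 - ε) * (((d : ℝ) + 1) * (V - η) -
          ((d : ℝ) + 1) ^ (d + 1) / (d + 1).factorial) ≤ (1 - ε) * (((d : ℝ) + 1) * W -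
          ((d : ℝ) + 1) ^ (d + 1) / (d + 1).factorial) := by
        apply mul_le_mul_of_nonneg_left _ (by linarith)
        have := mul_le_mul_of_nonneg_left (show V - η ≤ W by linarith)
          (by linarith : (0 : ℝ) ≤ (d : ℝ) + 1)
        linarith
      have h5 : (d : ℝ) * W ≤ d * (V + η) := mul_le_mul_of_nonneg_left (by linarith) hd0
      linarith
    have hl1 : Tendsto (fun η : ℝ => (1 - ε) * (((d : ℝ) + 1) * (V - η) -
        ((d : ℝ) + 1) ^ (d + 1) / (d + 1).factorial)) (𝓝[>] 0)
        (𝓝 ((1 - ε) * (((d : ℝ) + 1) * (V - 0) -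
        ((d : ℝ) + 1) ^ (d + 1) / (d + 1).factorial))) := by
      refine Tendsto.mono_left ?_ nhdsWithin_le_nhds
      exact (((tendsto_const_nhds.sub tendsto_id).const_mul _).sub_const _).const_mul _
    have hl2 : Tendsto (fun η : ℝ => (d : ℝ) * (V + η)) (𝓝[>] 0) (𝓝 ((d : ℝ) * (V + 0))) := by
      refine Tendsto.mono_left ?_ nhdsWithin_le_nhds
      exact (tendsto_const_nhds.add tendsto_id).const_mul _
    have := le_of_tendsto_of_tendsto hl1 hl2 key
    rwa [add_zero, sub_zero] at this
  -- `ε → 0`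
  have hlim : Tendsto (fun ε : ℝ => (1 - ε) * (((d : ℝ) + 1) * V -
      ((d : ℝ) + 1) ^ (d + 1) / (d + 1).factorial)) (𝓝[>] 0)
      (𝓝 ((1 - 0) * (((d : ℝ) + 1) * V - ((d : ℝ) + 1) ^ (d + 1) / (d + 1).factorial))) := by
    refine Tendsto.mono_left ?_ nhdsWithin_le_nhds
    exact (tendsto_const_nhds.sub tendsto_id).mul_const _
  have hfin : (1 - 0) * (((d : ℝ) + 1) * V - ((d : ℝ) + 1) ^ (d + 1) / (d + 1).factorial) ≤ d * V := by
    refine le_of_tendsto hlim ?_
    filter_upwards [Ioo_mem_nhdsGT (zero_lt_one : (0 : ℝ) < 1)] with ε h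
    exact hε ε h.1 h.2
  have hfac : ((d + 1).factorial : ℝ) = ((d : ℝ) + 1) * d.factorial := by
    rw [Nat.factorial_succ]; push_cast; ring
  have hdf : (0 : ℝ) < d.factorial := by positivity
  have hpow : ((d : ℝ) + 1) ^ (d + 1) / (d + 1).factorial = ((d : ℝ) + 1) ^ d / d.factorial := by
    rw [hfac, pow_succ]
    field_simp
  rw [hpow] at hfin
  linarith

end Pool.Agent.H906.EhrW
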